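import Pool.Agent.Y184.SP.Asm2

/-!
Semipositive currents with potentials of class `C¹`.
-/

set_option autoImplicit false

open Set Topology Filter
open scoped ContDiff Manifold

namespace Pool.Agent.Y184.SP

section Surface

variable {Y : Type} [TopologicalSpace Y] [ChartedSpace (ℂ × ℂ) Y]

/-- The function `φ` (continuous near `p`) is plurisubharmonic near `p`: it has the submean value
property on the holomorphic discs in a neighbourhood of `p`. -/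
def PshAt (φ : Y → ℝ) (p : Y) : Prop := ∃ N ∈ 𝓝 p, ∀ f : ℂ → Y,
  (∀ ζ : ℂ, ‖ζ‖ ≤ 1 → ContMDiffAt 𝓘(ℂ, ℂ) 𝓘(ℂ, ℂ × ℂ) ω f ζ ∧ f ζ ∈ N) →
    φ (f 0) ≤ Real.circleAverage (fun ζ => φ (f ζ)) 0 1

end Surface

/-- `f` is of class `C¹` near `z` -/
def C1At (f : E → ℝ) (z : E) : Prop := ∀ᶠ z' in 𝓝 z, ContDiffAt ℝ 1 f z'

/-- the submean value property for affine discs near `z0` -/
def SubM (φ : E → ℝ) (z0 : E) : Prop := ∃ r : ℝ, 0 < r ∧ ∀ z v : E, ‖z - z0‖ < r → ‖v‖ < r →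
  φ z ≤ Real.circleAverage (fun ζ : ℂ => φ (z + ζ • v)) 0 1

/-- the holomorphic derivative of `φ` with respect to `y` at the point `(x, 0)` -/
noncomputable def gd (φ : E → ℝ) (x : ℂ) : ℂ :=
  (((fderiv ℝ φ (x, 0) (0, 1) : ℝ) : ℂ) - Complex.I * ((fderiv ℝ φ (x, 0) (0, Complex.I) : ℝ) : ℂ)) / 2

/-- the mean value properties of `g` near `x` -/
def Mvp (g : ℂ → ℂ) (x0 : ℂ) : Prop := ∃ r0 : ℝ, 0 < r0 ∧ ∀ x : ℂ, ‖x - x0‖ < r0 → ∀ r : ℝ, 0 < r →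
  r < r0 → Real.circleAverage (fun ζ => g (x + r * ζ)) 0 1 = g x ∧
    Real.circleAverage (fun ζ => ζ * g (x + r * ζ)) 0 1 = 0

/-- holomorphy from mean values -/
def StMvp : Prop := ∀ (g : ℂ → ℂ) (O : Set ℂ), IsOpen O → ContinuousOn g O → (∀ x ∈ O, Mvp g x) →
  DifferentiableOn ℂ g O

/-- the normal derivative along a curve on which the function is constant -/
def StScale : Prop := ∀ (φ : E → ℝ) (x0 : ℂ) (c : ℝ), C1At φ (x0, 0) →
  (∀ᶠ x in 𝓝 x0, φ (x, 0) = c) → SubM φ (x0, 0) → Mvp (gd φ) x0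

/-- the maximum principle on the torus -/
def StTor : Prop := ∀ v : ℂ → ℝ, Continuous v → (∀ x l, l ∈ Lam → v (x + l) = v x) →
  (∀ x, ∃ r0 : ℝ, 0 < r0 ∧ ∀ r, 0 < r → r < r0 → v x ≤ Real.circleAverage v x r) →
  ∃ c, ∀ x, v x = c

/-- the maximum principle on the Riemann sphere -/
def StSph : Prop := ∀ k k' : ℂ → ℝ, Continuous k → ContinuousAt k' 0 → (∀ η, η ≠ 0 → k η = k' η⁻¹) →
  (∀ x, ∃ r0 : ℝ, 0 < r0 ∧ ∀ r, 0 < r → r < r0 → k x ≤ Real.circleAverage k x r) →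
  (∃ r0 : ℝ, 0 < r0 ∧ ∀ r, 0 < r → r < r0 → k' 0 ≤ Real.circleAverage k' 0 r) →
  ∃ c, ∀ x, k x = c

/-- there is no semipositive current with potentials of class `C¹` -/
def StNot1 : Prop := ∀ u : E → ℝ, Per u → (∀ j, ∀ z ∈ V j, ∃ f : E → ℝ, C1At f z ∧
    (∀ᶠ z' in 𝓝 z, tr j z' ∈ W → f z' = u (tr j z')) ∧
    ∀ ρ, PotAt Phi j z ρ → SubM (fun t => ρ t + f t) z) → False

/-- from the surface to the coordinates -/
def StSub : Prop := ∀ (τ : TopologicalSpace X) (ch : ChartedSpace E X), IsMan τ ch →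
  ∀ (α : Form X), Asm.HasPots α Phi → ∀ u : X → ℝ, Continuous u →
  (∀ p, PshAt (fun q => α.pot p q + u q) p) → ∀ j, ∀ z ∈ V j, ∀ ρ, PotAt Phi j z ρ →
  SubM (fun t => ρ t + u (kap j t)) z

end Pool.Agent.Y184.SP
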