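import Pool.Agent.Y184.SP.Asm3
import Pool.Agent.Y184.SP.Base4

/-!
The assembly for currents with potentials of class `C¹`.
-/

set_option autoImplicit false

open Set Topology Filter
open scoped ContDiff Manifold

namespace Pool.Agent.Y184.SP.Asm

section

variable [τ : TopologicalSpace X] [ch : ChartedSpace E X]

omit τ ch in
theorem down_per (hPt : StPt) (u : X → ℝ) : Per (down u) := by
  intro x y l hl
  by_cases h1 : ((x, y) : E) ∈ V 0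
  · have h2 : ((x + l, y) : E) ∈ V 0 := by
      rcases h1 with h1 | h1
      · exact Or.inl (fun h3 => h1 ((lam_add hl).1 h3))
      · exact Or.inr h1
    rw [down_eq u h1, down_eq u h2, ← hPt.2.2.2.2.2.2.1 (x, y) h1 l hl]
  · have h2 : ((x + l, y) : E) ∉ V 0 := by
      rintro (h2 | h2)
      · exact h1 (Or.inl (fun h3 => h2 ((lam_add hl).2 h3)))
      · exact h1 (Or.inr h2)
    unfold down
    rw [if_neg h1, if_neg h2]

theorem not_psh (hPt : StPt) (hM : IsMan τ ch) (hNot : StNot1) (hSub : StSub) {α : Form X}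
    (hα : HasPots α Phi) (u : X → ℝ) (hu : ContMDiff 𝓘(ℝ, E) 𝓘(ℝ, ℝ) 1 u) :
    ¬ ∀ p, PshAt (fun q => α.pot p q + u q) p := by
  intro hpsh
  have hsm : ∀ j, ∀ z ∈ V j, C1At (fun t => u (kap j t)) z := by
    intro j z hz
    filter_upwards [(hPt.1 j).mem_nhds hz] with t ht
    have h1 : ContMDiffAt 𝓘(ℝ, E) 𝓘(ℝ, E) 1 (kap j) t :=
      (real_of_complex (hM.kap_an j t ht)).of_le (by norm_cast)
    have h2 : ContMDiffAt 𝓘(ℝ, E) 𝓘(ℝ, ℝ) 1 (u ∘ kap j) t :=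
      ContMDiffAt.comp t (hu (kap j t)) h1
    exact contMDiffAt_iff_contDiffAt.1 h2
  refine hNot (down u) (down_per hPt u) fun j z hz =>
    ⟨fun t => u (kap j t), hsm j z hz, ?_, fun ρ hρ =>
      hSub τ ch hM α hα u hu.continuous hpsh j z hz ρ hρ⟩
  filter_upwards [(hPt.1 j).mem_nhds hz] with t ht hW
  rw [down_eq u (W_sub hW), hPt.2.2.2.1 j t ht hW]

end

/-- the main theorem, from its parts -/
theorem main1 (hG : StG) (hPhi : StPhi) (hPsi : StPsi) (hNef : StNef) (hBig : StBig)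
    (hNot : StNot) (hPt : StPt) (hCpt : StCpt) (hLev : StLev) (hReg : StReg) (hMan : StMan)
    (hVal : StVal) (hExt : StExt) (hPos : StPos) (hNot1 : StNot1) (hSub : StSub) :
    ∃ (Y : Type) (_ : TopologicalSpace Y) (_ : ChartedSpace (ℂ × ℂ) Y),
      IsManifold 𝓘(ℂ, ℂ × ℂ) ω Y ∧ CompactSpace Y ∧ ConnectedSpace Y ∧ T2Space Y ∧
      ∃ Ω α : Form Y, Ω.IsKahler ∧ Nef Ω α ∧ Big Ω α ∧
        (∀ u : Y → ℝ, ContMDiff 𝓘(ℝ, ℂ × ℂ) 𝓘(ℝ, ℝ) 1 u →
          ¬ ∀ p, PshAt (fun q => α.pot p q + u q) p) ∧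
        ∀ θ : Form Y, θ.Cohomologous α → ¬ θ.Semipositive := by
  obtain ⟨τ, ch, hM, hc, ht2, hconn⟩ := hMan
  obtain ⟨G, h, c, hGr⟩ := hG
  obtain ⟨K, c0, hK, hc0, hlow, hloc⟩ := hPsi G h c hGr
  obtain ⟨hper, hpot⟩ := hPhi
  have hloc' : ∀ j, ∀ z ∈ V j, ∃ ρ, PotAt (Psi G K) j z ρ := fun j z hz =>
    let ⟨ρ, h1, _⟩ := hloc j z hz
    ⟨ρ, h1⟩
  obtain ⟨perPsi, regPsi⟩ := hReg.2 G h c hGr K
  obtain ⟨α, hα⟩ := hVal τ ch hM Phi hper hReg.1 hpot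
  obtain ⟨Ω, hΩ⟩ := hVal τ ch hM (Psi G K) perPsi regPsi hloc'
  exact ⟨X, τ, ch, hM.man, hc, hconn, ht2, Ω, α, kahler hPt hM hΩ hloc,
    nef hPt hLev hVal hExt hPos hM hGr hc0 hNef hΩ hα hpot hper hReg hlow hloc',
    big hPt hCpt hLev hExt hPos hM hGr hK hBig hΩ hα hpot hper hReg hloc',
    fun u hu => not_psh hPt hM hNot1 hSub hα u hu,
    not_semi hPt hLev hM hNot hα hReg.1⟩

end Pool.Agent.Y184.SP.Asm
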