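import Pool.Agent.Y184.SP.Base4

/-!
Holomorphy from mean values.
-/

set_option autoImplicit false

open Set Topology Filter MeasureTheory Metric
open scoped ContDiff Convolution Real

namespace Pool.Agent.Y184.SP.Mv

theorem norm_avg_le {f : ℂ → ℂ} {C : ℝ} (h : ∀ ζ : ℂ, ‖ζ‖ = 1 → ‖f ζ‖ ≤ C) :
    ‖Real.circleAverage f 0 1‖ ≤ C := by
  have h1 : ‖∫ θ in (0 : ℝ)..2 * π, f (circleMap 0 1 θ)‖ ≤ C * |2 * π - 0| := by
    apply intervalIntegral.norm_integral_le_of_norm_le_const
    intro θ _
    apply h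
    rw [norm_circleMap_zero, abs_one]
  rw [sub_zero, abs_of_pos (by positivity)] at h1
  rw [Real.circleAverage_def, norm_smul, norm_inv, Real.norm_of_nonneg (by positivity)]
  rw [inv_mul_le_iff₀ (by positivity)]
  linarith

theorem avg_poly (A a b : ℂ) : Real.circleAverage (fun ζ => ζ * (A + (a * ζ + b * (starRingEnd ℂ) ζ)))
    0 1 = b := by
  have h1 : Real.circleAverage (fun ζ => ζ * (A + (a * ζ + b * (starRingEnd ℂ) ζ))) 0 1 =
      Real.circleAverage (fun ζ => ζ * A + a * ζ ^ 2 + b) 0 1 := by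
    apply Real.circleAverage_congr_sphere
    intro ζ hζ
    rw [abs_one, mem_sphere, dist_zero_right] at hζ
    have h2 : ζ * (starRingEnd ℂ) ζ = 1 := by
      rw [Complex.mul_conj, Complex.normSq_eq_norm_sq, hζ]
      norm_num
    linear_combination b * h2
  have hd : DiffContOnCl ℂ (fun ζ : ℂ => ζ * A + a * ζ ^ 2 + b) (ball (0 : ℂ) |1|) := by
    apply Differentiable.diffContOnCl
    fun_prop
  rw [h1, hd.circleAverage]
  simp

theorem dbar_zero {G : ℂ → ℂ} {x : ℂ} {δ : ℝ} (hδ : 0 < δ) (hG : ContDiff ℝ 1 G)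
    (h : ∀ r : ℝ, 0 < r → r < δ → Real.circleAverage (fun ζ => ζ * G (x + r * ζ)) 0 1 = 0) :
    DifferentiableAt ℂ G x := by
  have hdG : DifferentiableAt ℝ G x := hG.differentiable (by norm_num) x
  rw [differentiableAt_complex_iff_differentiableAt_real]
  refine ⟨hdG, ?_⟩
  obtain ⟨L, hL⟩ : ∃ L, L = fderiv ℝ G x := ⟨_, rfl⟩
  rw [← hL]
  have hFD : HasFDerivAt G L x := hL ▸ hdG.hasFDerivAt
  obtain ⟨a, ha⟩ : ∃ a, a = (L 1 - Complex.I * L Complex.I) / 2 := ⟨_, rfl⟩
  obtain ⟨b, hb⟩ : ∃ b, b = (L 1 + Complex.I * L Complex.I) / 2 := ⟨_, rfl⟩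
  have hLe : ∀ ζ : ℂ, L ζ = a * ζ + b * (starRingEnd ℂ) ζ := by
    intro ζ
    have h1 : L ζ = ζ.re * L 1 + ζ.im * L Complex.I := by
      have h2 : ζ = ζ.re • (1 : ℂ) + ζ.im • Complex.I := by
        rw [Complex.real_smul, Complex.real_smul, mul_one]
        exact (Complex.re_add_im ζ).symm
      conv_lhs => rw [h2]
      rw [map_add, map_smul, map_smul, Complex.real_smul, Complex.real_smul]
    have h3 : ζ = ζ.re + ζ.im * Complex.I := (Complex.re_add_im ζ).symm
    have h4 : (starRingEnd ℂ) ζ = ζ.re - ζ.im * Complex.I := by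
      apply Complex.ext <;> simp
    rw [h1, h4, ha, hb]
    conv_rhs => rw [h3]
    simp only [Complex.add_re, Complex.ofReal_re, Complex.mul_re, Complex.I_re, mul_zero,
      Complex.ofReal_im, Complex.I_im, mul_one, sub_self, add_zero, Complex.add_im, Complex.mul_im,
      zero_add]
    ring_nf
    rw [Complex.I_sq]
    ring
  have hb0 : b = 0 := by
    by_contra hne
    have hbp : 0 < ‖b‖ / 2 := by
      have := norm_pos_iff.2 hne
      linarith
    have h1 := (hasFDerivAt_iff_isLittleO_nhds_zero.1 hFD).def hbp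
    rw [Metric.eventually_nhds_iff] at h1
    obtain ⟨ε, hε, h2⟩ := h1
    obtain ⟨r, hr0, hr1, hr2⟩ : ∃ r : ℝ, 0 < r ∧ r < δ ∧ r < ε :=
      ⟨min δ ε / 2, by positivity, by
        have := min_le_left δ ε
        linarith, by
        have := min_le_right δ ε
        have : 0 < min δ ε := lt_min hδ hε
        linarith⟩
    have h3 := h r hr0 hr1
    have h4 : Real.circleAverage (fun ζ => ζ * (G x + L (r * ζ))) 0 1 = r * b := by
      have e1 : (fun ζ : ℂ => ζ * (G x + L (r * ζ))) =
          fun ζ => ζ * (G x + ((r * a) * ζ + (r * b) * (starRingEnd ℂ) ζ)) := by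
        funext ζ
        rw [hLe, map_mul, Complex.conj_ofReal]
        ring
      rw [e1, avg_poly]
    have c1 : Continuous fun ζ : ℂ => ζ * G (x + r * ζ) := by
      have := hG.continuous
      fun_prop
    have c2 : Continuous fun ζ : ℂ => ζ * (G x + L (r * ζ)) := by
      have := L.continuous
      fun_prop
    have h5 : Real.circleAverage (fun ζ => ζ * G (x + r * ζ) - ζ * (G x + L (r * ζ))) 0 1 =
        -(r * b) := by
      rw [Real.circleAverage_fun_sub (c1.continuousOn.circleIntegrable')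
        (c2.continuousOn.circleIntegrable'), h3, h4, zero_sub]
    have h6 : ‖-(r * b)‖ ≤ ‖b‖ / 2 * r := by
      rw [← h5]
      apply norm_avg_le
      intro ζ hζ
      have h7 : ‖(r : ℂ) * ζ‖ = r := by
        rw [norm_mul, Complex.norm_real, Real.norm_of_nonneg hr0.le, hζ, mul_one]
      have h8 := h2 (y := r * ζ) (by rw [dist_zero_right, h7]; exact hr2)
      rw [h7] at h8
      have h9 : ζ * G (x + r * ζ) - ζ * (G x + L (r * ζ)) = ζ * (G (x + r * ζ) - G x - L (r * ζ)) := by
        ring
      rw [h9, norm_mul, hζ, one_mul]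
      exact h8
    rw [norm_neg, norm_mul, Complex.norm_real, Real.norm_of_nonneg hr0.le] at h6
    have h10 : 0 < ‖b‖ := by linarith
    nlinarith
  rw [hLe, hLe, hb0]
  simp [mul_comm]

theorem conv_avg {g : ℂ → ℂ} {K : Set ℂ} (hK : IsCompact K) (hg : ContinuousOn g K)
    (φ : ContDiffBump (0 : ℂ)) {x : ℂ} {r : ℝ}
    (h : ∀ t : ℂ, ‖t‖ < φ.rOut → Real.circleAverage (fun ζ => ζ * K.indicator g (x - t + r * ζ)) 0 1
      = 0) :
    Real.circleAverage (fun ζ => ζ *
      (φ.normed volume ⋆[ContinuousLinearMap.lsmul ℝ ℝ, volume] K.indicator g) (x + r * ζ)) 0 1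
      = 0 := by
  obtain ⟨u, hu⟩ : ∃ u, u = K.indicator g := ⟨_, rfl⟩
  rw [← hu] at h ⊢
  have hum : Measurable u := by
    classical
    rw [hu, ← Set.piecewise_eq_indicator]
    exact hg.measurable_piecewise continuousOn_const hK.measurableSet
  obtain ⟨M, hM⟩ : ∃ M : ℝ, ∀ z, ‖u z‖ ≤ M := by
    obtain ⟨M, hM⟩ := hK.exists_bound_of_continuousOn hg
    refine ⟨max M 0, fun z => ?_⟩
    rw [hu]
    by_cases hz : z ∈ K
    · rw [Set.indicator_of_mem hz]
      exact (hM z hz).trans (le_max_left _ _)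
    · rw [Set.indicator_of_notMem hz, norm_zero]
      exact le_max_right _ _
  obtain ⟨ψ, hψ⟩ : ∃ ψ : ℂ → ℝ, ψ = φ.normed volume := ⟨_, rfl⟩
  have hψc : Continuous ψ := hψ ▸ (φ.contDiff_normed (n := 0)).continuous
  have hψi : Integrable ψ := hψ ▸ φ.integrable_normed
  rw [← hψ]
  have hpi : (0 : ℝ) ≤ 2 * π := by positivity
  have hI : Integrable (fun q : ℝ × ℂ => circleMap 0 1 q.1 * (ψ q.2 •
      u (x + r * circleMap 0 1 q.1 - q.2)))
      ((volume.restrict (Ioc (0:ℝ) (2 * π))).prod (volume : Measure ℂ)) := by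
    have h1 : Integrable (fun q : ℝ × ℂ => (fun _ : ℝ => M) q.1 * ψ q.2)
        ((volume.restrict (Ioc (0:ℝ) (2 * π))).prod (volume : Measure ℂ)) :=
      Integrable.mul_prod (f := fun _ : ℝ => M) (g := ψ) (integrable_const M) hψi
    refine h1.mono ?_ (Eventually.of_forall fun q => ?_)
    · apply Measurable.aestronglyMeasurable
      have m1 : Measurable fun q : ℝ × ℂ => circleMap 0 1 q.1 :=
        ((continuous_circleMap 0 1).comp continuous_fst).measurable
      have m2 : Measurable fun q : ℝ × ℂ => ψ q.2 := (hψc.comp continuous_snd).measurable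
      have m3 : Measurable fun q : ℝ × ℂ => x + r * circleMap 0 1 q.1 - q.2 := by
        exact (measurable_const.add (measurable_const.mul m1)).sub measurable_snd
      exact m1.mul (m2.smul (hum.comp m3))
    · rw [norm_mul, norm_circleMap_zero, abs_one, one_mul, norm_smul, norm_mul]
      have hM0 : 0 ≤ M := (norm_nonneg _).trans (hM 0)
      rw [Real.norm_of_nonneg hM0, mul_comm M]
      exact mul_le_mul_of_nonneg_left (hM _) (norm_nonneg _)
  have e1 : Real.circleAverage (fun ζ => ζ *
      (ψ ⋆[ContinuousLinearMap.lsmul ℝ ℝ, volume] u) (x + r * ζ)) 0 1 =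
      (2 * π)⁻¹ • ∫ θ in (0 : ℝ)..2 * π, ∫ t, circleMap 0 1 θ * (ψ t •
        u (x + r * circleMap 0 1 θ - t)) := by
    rw [Real.circleAverage_def]
    congr 1
    apply intervalIntegral.integral_congr
    intro θ _
    show circleMap 0 1 θ * (ψ ⋆[ContinuousLinearMap.lsmul ℝ ℝ, volume] u)
      (x + r * circleMap 0 1 θ) = _
    rw [convolution_def, ← integral_const_mul]
    rfl
  rw [e1, intervalIntegral.integral_of_le hpi,
    integral_integral_swap (f := fun θ t => circleMap 0 1 θ * (ψ t •
        u (x + r * circleMap 0 1 θ - t))) hI]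
  have e2 : ∀ t : ℂ, ∫ θ in Ioc (0 : ℝ) (2 * π), circleMap 0 1 θ * (ψ t •
      u (x + r * circleMap 0 1 θ - t)) = 0 := by
    intro t
    by_cases ht : ‖t‖ < φ.rOut
    · have h1 := h t ht
      rw [Real.circleAverage_def, smul_eq_zero] at h1
      have h2 : ∫ θ in (0 : ℝ)..2 * π, circleMap 0 1 θ * u (x - t + r * circleMap 0 1 θ) = 0 := by
        rcases h1 with h1 | h1
        · exfalso
          have : (0 : ℝ) < (2 * π)⁻¹ := by positivity
          linarith
        · exact h1
      rw [← intervalIntegral.integral_of_le hpi]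
      have h3 : (fun θ : ℝ => circleMap 0 1 θ * (ψ t • u (x + r * circleMap 0 1 θ - t))) =
          fun θ => (ψ t : ℂ) * (circleMap 0 1 θ * u (x - t + r * circleMap 0 1 θ)) := by
        funext θ
        rw [Complex.real_smul, add_sub_right_comm]
        ring
      rw [h3, intervalIntegral.integral_const_mul, h2, mul_zero]
    · have h0 : ψ t = 0 := by
        rw [hψ]
        apply Function.notMem_support.1
        rw [φ.support_normed_eq, mem_ball, dist_zero_right]
        exact ht
      simp [h0]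
  simp_rw [e2]
  simp

theorem mvp : StMvp := by
  intro g O hO hg hM x0 hx0
  obtain ⟨r0, hr0, hm⟩ := hM x0 hx0
  obtain ⟨δ, hδ, hδr, hball⟩ : ∃ δ : ℝ, 0 < δ ∧ 3 * δ ≤ r0 ∧ closedBall x0 (3 * δ) ⊆ O := by
    obtain ⟨ε, hε, hsub⟩ := Metric.nhds_basis_closedBall.mem_iff.1 (hO.mem_nhds hx0)
    refine ⟨min ε r0 / 3, by positivity, ?_, ?_⟩
    · have := min_le_right ε r0
      linarith
    · refine (closedBall_subset_closedBall ?_).trans hsub
      have := min_le_left ε r0
      linarith
  obtain ⟨K, hKd⟩ : ∃ K, K = closedBall x0 (3 * δ) := ⟨_, rfl⟩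
  have hK : IsCompact K := hKd ▸ isCompact_closedBall _ _
  have hgK : ContinuousOn g K := hg.mono (hKd ▸ hball)
  have hin : ∀ x ∈ ball x0 δ, ∀ t : ℂ, ‖t‖ < δ → ∀ s : ℂ, ‖s‖ < δ → x - t + s ∈ K := by
    intro x hx t ht s hs
    rw [hKd, mem_closedBall, dist_eq_norm]
    rw [mem_ball, dist_eq_norm] at hx
    have h1 : x - t + s - x0 = (x - x0) + (s - t) := by ring
    rw [h1]
    have h2 := norm_add_le (x - x0) (s - t)
    have h3 := norm_sub_le s t
    linarith
  obtain ⟨φ, hφ⟩ : ∃ φ : ℕ → ContDiffBump (0 : ℂ), ∀ n, (φ n).rOut = δ / (n + 2) :=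
    ⟨fun n => ⟨δ / (n + 2) / 2, δ / (n + 2), by positivity, by
      have : 0 < δ / ((n : ℝ) + 2) := by positivity
      linarith⟩, fun n => rfl⟩
  have hφδ : ∀ n, (φ n).rOut ≤ δ := by
    intro n
    rw [hφ]
    apply div_le_self hδ.le
    have : (0 : ℝ) ≤ n := Nat.cast_nonneg n
    linarith
  have hint : LocallyIntegrable (K.indicator g) volume := by
    apply Integrable.locallyIntegrable
    rw [integrable_indicator_iff hK.measurableSet]
    exact hgK.integrableOn_compact hK
  obtain ⟨G, hG⟩ : ∃ G : ℕ → ℂ → ℂ, G = fun n =>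
    ((φ n).normed volume ⋆[ContinuousLinearMap.lsmul ℝ ℝ, volume] K.indicator g) := ⟨_, rfl⟩
  have hGd : ∀ n, ∀ x ∈ ball x0 δ, DifferentiableAt ℂ (G n) x := by
    intro n x hx
    rw [hG]
    apply dbar_zero hδ
    · exact (φ n).hasCompactSupport_normed.contDiff_convolution_left _
        (φ n).contDiff_normed hint
    · intro r hr hrδ
      apply conv_avg hK hgK
      intro t ht
      have htδ : ‖t‖ < δ := ht.trans_le (hφδ n)
      have h1 := (hm (x - t) (by
        rw [mem_ball, dist_eq_norm] at hx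
        have h1 : x - t - x0 = (x - x0) - t := by ring
        rw [h1]
        have h2 := norm_sub_le (x - x0) t
        linarith) r hr (by linarith)).2
      refine Eq.trans ?_ h1
      apply Real.circleAverage_congr_sphere
      intro ζ hζ
      rw [abs_one, mem_sphere, dist_zero_right] at hζ
      show ζ * K.indicator g (x - t + r * ζ) = ζ * g (x - t + r * ζ)
      rw [Set.indicator_of_mem]
      apply hin x hx t htδ
      rw [norm_mul, Complex.norm_real, Real.norm_of_nonneg hr.le, hζ, mul_one]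
      exact hrδ
  have hT : TendstoUniformlyOn G g atTop (ball x0 δ) := by
    rw [Metric.tendstoUniformlyOn_iff]
    intro ε hε
    have huc := hK.uniformContinuousOn_of_continuous hgK
    rw [Metric.uniformContinuousOn_iff] at huc
    obtain ⟨η, hη, hu⟩ := huc (ε / 2) (by positivity)
    have hlim : Tendsto (fun n : ℕ => δ / ((n : ℝ) + 2)) atTop (𝓝 0) := by
      apply Tendsto.div_atTop tendsto_const_nhds
      exact tendsto_atTop_add_const_right _ _ tendsto_natCast_atTop_atTop
    filter_upwards [hlim.eventually (gt_mem_nhds hη)] with n hn x hx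
    rw [dist_comm]
    have hxK : x ∈ K := by
      have := hin x hx 0 (by simpa using hδ) 0 (by simpa using hδ)
      simpa using this
    have h1 : dist (G n x) (K.indicator g x) ≤ ε / 2 := by
      rw [hG]
      apply ContDiffBump.dist_normed_convolution_le
      · exact hint.aestronglyMeasurable
      · intro y hy
        have hyK : y ∈ K := by
          rw [mem_ball, dist_eq_norm] at hy
          have h2 := hin x hx 0 (by simpa using hδ) (y - x) (hy.trans_le (hφδ n))
          have h3 : x - 0 + (y - x) = y := by ring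
          rwa [h3] at h2
        rw [Set.indicator_of_mem hyK, Set.indicator_of_mem hxK]
        apply (hu y hyK x hxK _).le
        rw [mem_ball, hφ] at hy
        linarith
    rw [Set.indicator_of_mem hxK] at h1
    linarith
  have hD : DifferentiableOn ℂ g (ball x0 δ) :=
    hT.tendstoLocallyUniformlyOn.differentiableOn
      (Eventually.of_forall fun n x hx => (hGd n x hx).differentiableWithinAt) isOpen_ball
  exact (hD.differentiableAt (ball_mem_nhds x0 hδ)).differentiableWithinAt

end Pool.Agent.Y184.SP.Mv
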