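import Pool.Agent.Y184.SP.Base3

/-!
Lemmas for the assembly.
-/

set_option autoImplicit false

open Set Topology Filter
open scoped ContDiff Manifold

namespace Pool.Agent.Y184.SP.Asm

theorem real_of_complex {M N : Type} [TopologicalSpace M] [ChartedSpace E M] [TopologicalSpace N]
    [ChartedSpace E N] {f : M → N} {x : M} (h : ContMDiffAt 𝓘(ℂ, E) 𝓘(ℂ, E) ω f x) :
    ContMDiffAt 𝓘(ℝ, E) 𝓘(ℝ, E) ∞ f x := by
  rw [contMDiffAt_iff] at h ⊢
  refine ⟨h.1, ?_⟩
  have h2 : ContDiffWithinAt ℝ ω _ _ _ := h.2.restrict_scalars ℝ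
  exact h2.of_le le_top

theorem lev_congr {ρ σ : E → ℝ} {z : E} (h : ρ =ᶠ[𝓝 z] σ) (v : E) : lev ρ z v = lev σ z v := by
  unfold lev
  have hc : Tendsto (fun ζ : ℂ => z + ζ • v) (𝓝 0) (𝓝 z) := by
    have : Continuous (fun ζ : ℂ => z + ζ • v) := by fun_prop
    simpa using this.tendsto 0
  have h1 : (fun ζ : ℂ => ρ (z + ζ • v)) =ᶠ[𝓝 0] (fun ζ : ℂ => σ (z + ζ • v)) :=
    hc.eventually (p := fun y => ρ y = σ y) h
  have h2 := (InnerProductSpace.laplacian_congr_nhds h1).self_of_nhds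
  exact h2

theorem W_open_tr {j : Fin 5} {z : E} (hz : z ∈ V j) (h : tr j z ∈ W) : ContDiffAt ℂ ω (tr j) z := by
  fin_cases j
  · exact contDiffAt_id
  · have h0 : z.2 ≠ 0 := by
      intro h0
      apply h.2
      simp [tr, h0]
    exact contDiffAt_fst.prodMk (contDiffAt_snd.inv h0)
  · exact (contDiffAt_fst.mul contDiffAt_snd).prodMk
      (contDiffAt_snd.add (contDiffAt_fst.mul contDiffAt_snd))
  · exact (contDiffAt_fst.mul contDiffAt_snd).prodMk
      ((contDiffAt_fst.mul (contDiffAt_snd.pow 2)).add (contDiffAt_fst.mul contDiffAt_snd))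
  · exact contDiffAt_fst.prodMk
      (((contDiffAt_fst.pow 2).mul contDiffAt_snd).add contDiffAt_fst)

theorem tr_cont {j : Fin 5} (hj : j ≠ 1) : Continuous (tr j) := by
  fin_cases j
  · exact continuous_id
  · exact absurd rfl hj
  · show Continuous (fun z : E => ((z.1 * z.2, z.2 + z.1 * z.2) : E)); fun_prop
  · show Continuous (fun z : E => ((z.1 * z.2, z.1 * z.2 ^ 2 + z.1 * z.2) : E)); fun_prop
  · show Continuous (fun z : E => ((z.1, z.1 ^ 2 * z.2 + z.1) : E)); fun_prop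

theorem lam_closed : IsClosed Lam := by
  have h1 : Lam = ((fun x : ℂ => x.re) ⁻¹' (Set.range ((↑) : ℤ → ℝ))) ∩
      ((fun x : ℂ => x.im) ⁻¹' (Set.range ((↑) : ℤ → ℝ))) := by
    ext x
    constructor
    · rintro ⟨m, n, rfl⟩
      exact ⟨⟨m, by simp⟩, ⟨n, by simp⟩⟩
    · rintro ⟨⟨m, hm⟩, ⟨n, hn⟩⟩
      exact ⟨m, n, Complex.ext (by simpa using hm.symm) (by simpa using hn.symm)⟩
  rw [h1]
  have h2 : IsClosed (Set.range ((↑) : ℤ → ℝ)) := Int.isClosedEmbedding_coe_real.isClosed_range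
  exact (h2.preimage Complex.continuous_re).inter (h2.preimage Complex.continuous_im)

theorem W_open : IsOpen W := by
  have h1 : IsOpen {z : E | z.1 ∈ Lamᶜ} := lam_closed.isOpen_compl.preimage continuous_fst
  have h2 : IsOpen {z : E | z.2 ∈ ({0} : Set ℂ)ᶜ} :=
    isClosed_singleton.isOpen_compl.preimage continuous_snd
  exact h1.inter h2

theorem W_sub : W ⊆ V 0 := fun _ h => Or.inl h.1

theorem W_ev {j : Fin 5} {z : E} (hz : z ∈ V j) (h : tr j z ∈ W) : ∀ᶠ t in 𝓝 z, tr j t ∈ W :=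
  (W_open_tr hz h).continuousAt.eventually (W_open.mem_nhds h)

/-- potentials of `U` from potentials of `Φ` and an extension of `U - Φ` -/
theorem pot_add {Φ U : E → ℝ} {j : Fin 5} {z : E} (hV : IsOpen (V j)) (hz : z ∈ V j)
    {ρ f : E → ℝ} (hρ : PotAt Φ j z ρ)
    (hf : SmAt f z) (hfU : ∀ᶠ z' in 𝓝 z, tr j z' ∈ W → f z' = U (tr j z') - Φ (tr j z')) :
    PotAt U j z (fun t => ρ t + f t) := by
  refine ⟨(hρ.1.and hf).mono fun t ht => ht.1.add ht.2, ?_⟩
  filter_upwards [hρ.2, hfU.eventually_nhds, hV.mem_nhds hz] with t h1 h2 h3 hW v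
  rw [← h1 hW v]
  apply lev_congr
  filter_upwards [h2, W_ev h3 hW] with s hs hsW
  rw [hs hsW]; ring

theorem reg_add {Φ U : E → ℝ} (hΦ : ∀ z ∈ W, ContDiffAt ℝ ∞ Φ z)
    (hU : ∀ z ∈ W, ExtAt (fun z => U z - Φ z) 0 z) : ∀ z ∈ W, ContDiffAt ℝ ∞ U z := by
  intro z hz
  obtain ⟨f, hf, hfU⟩ := hU z hz
  have h1 : ContDiffAt ℝ ∞ (fun t => Φ t + f t) z := (hΦ z hz).add hf.self_of_nhds
  refine h1.congr_of_eventuallyEq ?_
  filter_upwards [hfU, W_open.mem_nhds hz] with t ht hW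
  have := ht hW
  simp only [tr] at this
  rw [this]; ring

theorem per_sub {u v : E → ℝ} (hu : Per u) (hv : Per v) : Per (fun z => u z - v z) :=
  fun x y l hl => by simp only [hu x y l hl, hv x y l hl]

theorem pot_self {Φ : E → ℝ} (hΦ : ∀ z ∈ W, ContDiffAt ℝ ∞ Φ z) {z : E} (hz : z ∈ W) :
    PotAt Φ 0 z Φ := by
  refine ⟨?_, Eventually.of_forall fun t _ v => ?_⟩
  · filter_upwards [W_open.mem_nhds hz] with t ht using hΦ t ht
  · have h1 : lev (fun t => Φ t - Φ (tr 0 t)) t v = lev (fun _ => (0 : ℝ)) t v := by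
      apply lev_congr
      exact Eventually.of_forall fun s => by simp [tr]
    rw [h1]
    unfold lev
    simp

end Pool.Agent.Y184.SP.Asm
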