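import Pool.Agent.Y184.SP.Asm1

/-!
The assembly.
-/

set_option autoImplicit false

open Set Topology Filter
open scoped ContDiff Manifold

namespace Pool.Agent.Y184.SP.Asm

/-- a local inverse of `kap j` at the point `z`, at the value `p` -/
structure IsInv [TopologicalSpace X] [ChartedSpace E X] (j : Fin 5) (z : E) (p : X) (g : X → E) :
    Prop where
  mem : z ∈ V j
  eq : kap j z = p
  an : ContMDiffAt 𝓘(ℂ, E) 𝓘(ℂ, E) ω g p
  val : g p = z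
  right : ∀ᶠ q in 𝓝 p, kap j (g q) = q
  left : ∀ᶠ t in 𝓝 z, g (kap j t) = t

section

variable [τ : TopologicalSpace X] [ch : ChartedSpace E X]

theorem exists_inv (hPt : StPt) (hM : IsMan τ ch) (p : X) :
    ∃ (j : Fin 5) (z : E) (g : X → E), IsInv j z p g := by
  obtain ⟨j, z, hz, hp⟩ := hPt.2.1 p
  obtain ⟨g, h1, h2, h3, h4⟩ := hM.inv j z hz
  exact ⟨j, z, g, hz, hp, hp ▸ h1, hp ▸ h2, hp ▸ h3, h4⟩

theorem exists_inv' (hM : IsMan τ ch) {j : Fin 5} {z : E} (hz : z ∈ V j) :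
    ∃ (g : X → E), IsInv j z (kap j z) g := by
  obtain ⟨g, h1, h2, h3, h4⟩ := hM.inv j z hz
  exact ⟨g, hz, rfl, h1, h2, h3, h4⟩

variable {j : Fin 5} {z : E} {p : X} {g : X → E} {f : ℂ → X}

theorem IsInv.disc (h : IsInv j z p g) (hf : IsDisc f) (hp : f 0 = p) :
    ContDiffAt ℂ ω (fun ζ => g (f ζ)) 0 := by
  have h1 : ContMDiffAt 𝓘(ℂ, ℂ) 𝓘(ℂ, E) ω (g ∘ f) 0 := by
    apply ContMDiffAt.comp (0 : ℂ) (I' := 𝓘(ℂ, E))
    · rw [hp]; exact h.an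
    · exact hf
  exact contMDiffAt_iff_contDiffAt.1 h1

theorem IsInv.disc_eq (h : IsInv j z p g) (hf : IsDisc f) (hp : f 0 = p) :
    ∀ᶠ ζ in 𝓝 (0 : ℂ), kap j (g (f ζ)) = f ζ := by
  have hc : ContinuousAt f 0 := hf.continuousAt
  have h1 : Tendsto f (𝓝 0) (𝓝 p) := by rw [← hp]; exact hc
  exact h1.eventually h.right

/-- the Laplacian of a function on the surface along a disc -/
theorem IsInv.lap (hLev : StLev) (h : IsInv j z p g) (hf : IsDisc f) (hp : f 0 = p) {u : X → ℝ}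
    {φ : E → ℝ} (hφ : SmAt φ z) (hu : ∀ᶠ t in 𝓝 z, u (kap j t) = φ t) :
    Laplacian.laplacian (fun ζ : ℂ => u (f ζ)) 0 = lev φ z (deriv (fun ζ => g (f ζ)) 0) := by
  have hF := h.disc hf hp
  have h0 : g (f 0) = z := by rw [hp, h.val]
  have h1 : (fun ζ : ℂ => u (f ζ)) =ᶠ[𝓝 0] (fun ζ : ℂ => φ (g (f ζ))) := by
    have hc : Tendsto (fun ζ => g (f ζ)) (𝓝 (0 : ℂ)) (𝓝 z) := by
      have h9 : Tendsto (fun ζ => g (f ζ)) (𝓝 (0 : ℂ)) (𝓝 (g (f 0))) := hF.continuousAt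
      rwa [h0] at h9
    filter_upwards [h.disc_eq hf hp, hc.eventually hu] with ζ h2 h3
    rw [← h2, h3, h2]
  rw [(InnerProductSpace.laplacian_congr_nhds h1).self_of_nhds]
  have h4 : ContDiffAt ℝ 2 φ (g (f 0)) := by
    rw [h0]
    exact hφ.self_of_nhds.of_le (by norm_cast)
  have h5 := hLev.1 φ (fun ζ => g (f ζ)) hF h4
  rw [h5]
  simp only [h0]

omit τ ch in
theorem sm2 {φ : E → ℝ} {z : E} (h : SmAt φ z) : ContDiffAt ℝ 2 φ z :=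
  h.self_of_nhds.of_le (by norm_cast)

/-- the value of the form along discs -/
def HasPots (θ : Form X) (Φ : E → ℝ) : Prop := ∀ f : ℂ → X, IsDisc f → ∀ j, ∀ z ∈ V j,
  kap j z = f 0 → ∀ ρ, PotAt Φ j z ρ →
    ∀ g : X → E, ContMDiffAt 𝓘(ℂ, E) 𝓘(ℂ, E) ω g (f 0) → g (f 0) = z →
    (∀ᶠ p in 𝓝 (f 0), kap j (g p) = p) → θ.val f = lev ρ z (deriv (fun ζ => g (f ζ)) 0)

theorem HasPots.val {θ : Form X} {Φ : E → ℝ} (hθ : HasPots θ Φ) (h : IsInv j z p g)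
    (hf : IsDisc f) (hp : f 0 = p) {ρ : E → ℝ} (hρ : PotAt Φ j z ρ) :
    θ.val f = lev ρ z (deriv (fun ζ => g (f ζ)) 0) := by
  subst hp
  exact hθ f hf j z h.mem h.eq ρ hρ g h.an h.val h.right

theorem kahler (hPt : StPt) (hM : IsMan τ ch) {Ω : Form X} {Ψ : E → ℝ} (hΩ : HasPots Ω Ψ)
    (hpos : ∀ j, ∀ z ∈ V j, ∃ ρ, PotAt Ψ j z ρ ∧ ∀ v, v ≠ 0 → 0 < lev ρ z v) : Ω.IsKahler := by
  intro f hf hne
  obtain ⟨j, z, g, h⟩ := exists_inv hPt hM (f 0)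
  obtain ⟨ρ, hρ, h1⟩ := hpos j z h.mem
  rw [hΩ.val h hf rfl hρ]
  apply h1
  intro h2
  apply hne
  have h3 : f =ᶠ[𝓝 (0 : ℂ)] (kap j ∘ fun ζ => g (f ζ)) := by
    filter_upwards [h.disc_eq hf rfl] with ζ hζ using hζ.symm
  rw [h3.mfderiv_eq]
  have hF := h.disc hf rfl
  have h4 : MDifferentiableAt 𝓘(ℂ, E) 𝓘(ℂ, E) (kap j) (g (f 0)) := by
    rw [h.val]
    exact (hM.kap_an j z h.mem).mdifferentiableAt (by simp)
  have h5 : MDifferentiableAt 𝓘(ℂ, ℂ) 𝓘(ℂ, E) (fun ζ => g (f ζ)) (0 : ℂ) :=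
    (contMDiffAt_iff_contDiffAt.2 hF).mdifferentiableAt (by simp)
  rw [mfderiv_comp (0 : ℂ) h4 h5]
  have h6 : mfderiv 𝓘(ℂ, ℂ) 𝓘(ℂ, E) (fun ζ => g (f ζ)) (0 : ℂ) = 0 := by
    have h7 : fderiv ℂ (fun ζ => g (f ζ)) (0 : ℂ) = 0 := by
      ext1
      rw [fderiv_apply_one_eq_deriv, h2]; rfl
    rw [mfderiv_eq_fderiv]
    exact h7
  rw [h6]
  exact ContinuousLinearMap.comp_zero _

/-- a representative from a function `U` -/
theorem rep (hPt : StPt) (hLev : StLev) (hVal : StVal) (hExt : StExt) (hM : IsMan τ ch)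
    {α : Form X} {Φ U : E → ℝ} (hα : HasPots α Φ) (hper : Per Φ)
    (hreg : ∀ z ∈ W, ContDiffAt ℝ ∞ Φ z) (hpot : ∀ j, ∀ z ∈ V j, ∃ ρ, PotAt Φ j z ρ)
    (perU : Per U) (hU : Ext (fun z => U z - Φ z)) :
    ∃ θ : Form X, HasPots θ U ∧ θ.Cohomologous α := by
  have regU : ∀ z ∈ W, ContDiffAt ℝ ∞ U z := reg_add hreg fun z hz => hU 0 z (W_sub hz)
  have potU : ∀ j, ∀ z ∈ V j, ∃ ρ, PotAt U j z ρ := by
    intro j z hz
    obtain ⟨ρ, hρ⟩ := hpot j z hz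
    obtain ⟨f, hf, hfU⟩ := hU j z hz
    exact ⟨_, pot_add (hPt.1 j) hz hρ hf hfU⟩
  obtain ⟨θ, hθ⟩ := hVal τ ch hM U perU regU potU
  refine ⟨θ, hθ, ?_⟩
  obtain ⟨u, hu⟩ := hExt τ ch hM (fun z => U z - Φ z) (per_sub perU hper)
  refine ⟨u, ?_, ?_⟩
  · intro p
    obtain ⟨j, z, hz, rfl⟩ := hPt.2.1 p
    obtain ⟨f, hf, hfU⟩ := hU j z hz
    exact (hu j z hz f hf hfU).2
  · intro f hf
    obtain ⟨j, z, g, h⟩ := exists_inv hPt hM (f 0)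
    obtain ⟨ρ, hρ⟩ := hpot j z h.mem
    obtain ⟨φ, hφ, hφU⟩ := hU j z h.mem
    have hθ' : HasPots θ U := hθ
    rw [hθ'.val h hf rfl (pot_add (hPt.1 j) h.mem hρ hφ hφU), hα.val h hf rfl hρ,
      h.lap hLev hf rfl hφ (hu j z h.mem φ hφ hφU).1]
    exact hLev.2.2.1 ρ φ z _ (sm2 hρ.1) (sm2 hφ)

theorem nef (hPt : StPt) (hLev : StLev) (hVal : StVal) (hExt : StExt) (hPos : StPos)
    (hM : IsMan τ ch) {G h : ℂ → ℝ} {c K c0 : ℝ} (hG : IsGreen G h c) (hc0 : 0 < c0)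
    (hNef : StNef) {Ω α : Form X}
    (hΩ : HasPots Ω (Psi G K)) (hα : HasPots α Phi)
    (hpot : ∀ j, ∀ z ∈ V j, ∃ ρ, PotAt Phi j z ρ) (hper : Per Phi)
    (hReg : StReg) (hlow : ∀ z ∈ W, ∀ v, c0 * nm z v ≤ lev (Psi G K) z v)
    (hloc : ∀ j, ∀ z ∈ V j, ∃ ρ, PotAt (Psi G K) j z ρ) : Nef Ω α := by
  intro ε hε
  obtain ⟨U, perU, extU, lowU⟩ := hNef G h c hG (ε * c0) (mul_pos hε hc0)
  obtain ⟨θ, hθ, hcoh⟩ := rep hPt hLev hVal hExt hM hα hper hReg.1 hpot perU extU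
  refine ⟨θ, hcoh, ?_⟩
  intro f hf
  obtain ⟨j, z, g, hi⟩ := exists_inv hPt hM (f 0)
  obtain ⟨ρ, hρ⟩ := hpot j z hi.mem
  obtain ⟨σ, hσ⟩ := hloc j z hi.mem
  obtain ⟨φ, hφ, hφU⟩ := extU j z hi.mem
  have hρU := pot_add (hPt.1 j) hi.mem hρ hφ hφU
  rw [hθ.val hi hf rfl hρU, hΩ.val hi hf rfl hσ]
  obtain ⟨perPsi, regPsi⟩ := hReg.2 G h c hG K
  have regU : ∀ z ∈ W, ContDiffAt ℝ ∞ U z := reg_add hReg.1 fun z hz => extU 0 z (W_sub hz)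
  have key := hPos (Psi G K) U (-ε) perPsi perU regPsi regU (by
    intro z hz v
    have h1 := lowU z hz v
    have h2 := mul_le_mul_of_nonneg_left (hlow z hz v) hε.le
    nlinarith) j z hi.mem σ _ hσ hρU (deriv (fun ζ => g (f ζ)) 0)
  rw [← neg_mul]
  exact key

/-- the union of the curve `y = 0` and the exceptional curves -/
def AA : Set X := {p | ∃ (j : Fin 5) (z : E), z ∈ V j ∧ kap j z = p ∧ onA j z}

omit τ ch in
theorem mem_AA (hPt : StPt) {j : Fin 5} {z : E} (hz : z ∈ V j) : kap j z ∈ AA ↔ onA j z := by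
  constructor
  · rintro ⟨j', z', hz', he, hA⟩
    exact hPt.2.2.2.2.2.2.2 j' j z' hz' z hz he hA
  · intro hA
    exact ⟨j, z, hz, rfl, hA⟩

theorem AA_closed (hPt : StPt) (hM : IsMan τ ch) : IsClosed (AA : Set X) := by
  rw [← isOpen_compl_iff, hM.isOpen_iff]
  intro i
  have h1 : V i ∩ kap i ⁻¹' (AA : Set X)ᶜ = V i ∩ {z | ¬ onA i z} := by
    ext z
    constructor
    · rintro ⟨h1, h2⟩
      exact ⟨h1, fun h3 => h2 ((mem_AA hPt h1).2 h3)⟩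
    · rintro ⟨h1, h2⟩
      exact ⟨h1, fun h3 => h2 ((mem_AA hPt h1).1 h3)⟩
  rw [h1]
  apply (hPt.1 i).inter
  by_cases hi : i = 1
  · have : {z | ¬ onA i z} = Set.univ := by
      ext z; simp [onA, hi]
    rw [this]; exact isOpen_univ
  · have : {z | ¬ onA i z} = (fun z => (tr i z).2) ⁻¹' ({0} : Set ℂ)ᶜ := by
      ext z; simp [onA, hi]
    rw [this]
    exact isClosed_singleton.isOpen_compl.preimage (continuous_snd.comp (tr_cont hi))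

theorem AA_interior (hPt : StPt) (hCpt : StCpt) (hM : IsMan τ ch) :
    interior (AA : Set X) = ∅ := by
  rw [Set.eq_empty_iff_forall_notMem]
  intro p hp
  obtain ⟨j, z, hz, rfl⟩ := hPt.2.1 p
  have hc : ContinuousAt (kap j) z := (hM.kap_an j z hz).continuousAt
  have h1 : (kap j) ⁻¹' (AA : Set X) ∈ 𝓝 z := hc (mem_interior_iff_mem_nhds.1 hp)
  have h2 := hCpt.2.1 j z hz
  rw [mem_closure_iff_nhds] at h2
  obtain ⟨t, ht1, ht2⟩ := h2 _ (Filter.inter_mem h1 ((hPt.1 j).mem_nhds hz))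
  exact ht2.2 ((mem_AA hPt ht1.2).1 ht1.1).2

theorem big (hPt : StPt) (hCpt : StCpt) (hLev : StLev) (hExt : StExt)
    (hPos : StPos) (hM : IsMan τ ch) {G h : ℂ → ℝ} {c K : ℝ} (hG : IsGreen G h c) (hK : 0 < K)
    (hBig : StBig) {Ω α : Form X}
    (hΩ : HasPots Ω (Psi G K)) (hα : HasPots α Phi)
    (hpot : ∀ j, ∀ z ∈ V j, ∃ ρ, PotAt Phi j z ρ) (hper : Per Phi)
    (hReg : StReg) (hloc : ∀ j, ∀ z ∈ V j, ∃ ρ, PotAt (Psi G K) j z ρ) : Big Ω α := by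
  obtain ⟨δ, U, hδ, perU, lowU, extU, limU⟩ := hBig G h c hG K hK
  obtain ⟨u, hu⟩ := hExt τ ch hM (fun z => U z - Phi z) (per_sub perU hper)
  refine ⟨δ, AA, u, hδ, AA_closed hPt hM, AA_interior hPt hCpt hM, ?_, ?_, ?_⟩
  · intro p hp
    obtain ⟨j, z, hz, rfl⟩ := hPt.2.1 p
    obtain ⟨f, hf, hfU⟩ := extU j z hz (fun h1 => hp ((mem_AA hPt hz).2 h1))
    exact (hu j z hz f hf hfU).2
  · intro p hp
    obtain ⟨j, z, g, hi⟩ := exists_inv hPt hM p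
    have hA : onA j z := by
      rw [← hi.eq] at hp
      exact (mem_AA hPt hi.mem).1 hp
    rw [tendsto_atBot]
    intro M
    have h1 : ∀ᶠ t in 𝓝 z, tr j t ∈ W → U (tr j t) - Phi (tr j t) ≤ M :=
      eventually_nhdsWithin_iff.1 ((tendsto_atBot.1 (limU j z hi.mem hA)) M)
    have h2 : Tendsto g (𝓝 p) (𝓝 z) := by
      have := hi.an.continuousAt
      unfold ContinuousAt at this
      rwa [hi.val] at this
    rw [eventually_nhdsWithin_iff]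
    filter_upwards [h2.eventually h1.eventually_nhds, hi.right,
      h2.eventually ((hPt.1 j).mem_nhds hi.mem)] with q h3 h4 h5 h6
    have h7 : ¬ onA j (g q) := fun h8 => h6 (by rw [← h4]; exact (mem_AA hPt h5).2 h8)
    obtain ⟨φ, hφ, hφU⟩ := extU j (g q) h5 h7
    have h8 := (hu j (g q) h5 φ hφ hφU).1.self_of_nhds
    rw [h4] at h8
    rw [h8]
    by_contra h9
    push Not at h9
    have h10 : ∀ᶠ t in 𝓝 (g q), M < φ t :=
      hφ.self_of_nhds.continuousAt.eventually (lt_mem_nhds h9)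
    have h11 := hCpt.2.1 j (g q) h5
    rw [mem_closure_iff_nhds] at h11
    obtain ⟨t, ht1, ht2⟩ := h11 _ (h10.and (h3.and hφU))
    have h12 := ht1.2.2 ht2
    have h13 := ht1.2.1 ht2
    have h14 : M < φ t := ht1.1
    rw [h12] at h14
    exact absurd h13 (not_le.2 h14)
  · intro f hf hfA
    obtain ⟨j, z, g, hi⟩ := exists_inv hPt hM (f 0)
    have hA : ¬ onA j z := by
      rw [← hi.eq] at hfA
      exact fun h1 => hfA ((mem_AA hPt hi.mem).2 h1)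
    obtain ⟨ρ, hρ⟩ := hpot j z hi.mem
    obtain ⟨σ, hσ⟩ := hloc j z hi.mem
    obtain ⟨φ, hφ, hφU⟩ := extU j z hi.mem hA
    have hρU := pot_add (hPt.1 j) hi.mem hρ hφ hφU
    obtain ⟨perPsi, regPsi⟩ := hReg.2 G h c hG K
    have regU : ∀ z ∈ W, ContDiffAt ℝ ∞ U z := reg_add hReg.1 fun z hz =>
      extU 0 z (W_sub hz) (fun h1 => hz.2 h1.2)
    rw [hΩ.val hi hf rfl hσ, hα.val hi hf rfl hρ,
      hi.lap hLev hf rfl hφ (hu j z hi.mem φ hφ hφU).1,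
      ← hLev.2.2.1 ρ φ z _ (sm2 hρ.1) (sm2 hφ)]
    exact hPos (Psi G K) U δ perPsi perU regPsi regU lowU j z hi.mem σ _ hσ hρU _

end

end Pool.Agent.Y184.SP.Asm
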