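import Pool.Agent.Y184.SP.Asm2

/-!
The assembly, end.
-/

set_option autoImplicit false

open Set Topology Filter
open scoped ContDiff Manifold

namespace Pool.Agent.Y184.SP.Asm

theorem lam_add {x l : ℂ} (hl : l ∈ Lam) : x + l ∈ Lam ↔ x ∈ Lam := by
  obtain ⟨m, n, rfl⟩ := hl
  constructor
  · rintro ⟨m', n', h⟩
    refine ⟨m' - m, n' - n, ?_⟩
    have : x = (m' + n' * Complex.I : ℂ) - (m + n * Complex.I) := by rw [← h]; ring
    rw [this]; push_cast; ring
  · rintro ⟨m', n', rfl⟩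
    refine ⟨m' + m, n' + n, ?_⟩
    push_cast; ring

section

variable [τ : TopologicalSpace X] [ch : ChartedSpace E X]

open Classical in
/-- the function on `E` of a function on the surface -/
noncomputable def down (u : X → ℝ) (z : E) : ℝ := if z ∈ V 0 then u (kap 0 z) else 0

omit τ ch in
theorem down_eq (u : X → ℝ) {z : E} (hz : z ∈ V 0) : down u z = u (kap 0 z) := if_pos hz

theorem not_semi (hPt : StPt) (hLev : StLev) (hM : IsMan τ ch) (hNot : StNot) {α : Form X}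
    (hα : HasPots α Phi) (hreg : ∀ z ∈ W, ContDiffAt ℝ ∞ Phi z)
    (θ : Form X) (hθ : θ.Cohomologous α) : ¬ θ.Semipositive := by
  intro hsemi
  obtain ⟨u, hu, hval⟩ := hθ
  have hsm : ∀ j, ∀ z ∈ V j, SmAt (fun t => u (kap j t)) z := by
    intro j z hz
    filter_upwards [(hPt.1 j).mem_nhds hz] with t ht
    have h1 : ContMDiffAt 𝓘(ℝ, E) 𝓘(ℝ, E) ∞ (kap j) t := real_of_complex (hM.kap_an j t ht)
    have h2 : ContMDiffAt 𝓘(ℝ, E) 𝓘(ℝ, ℝ) ∞ (u ∘ kap j) t :=
      ContMDiffAt.comp t (hu (kap j t)) h1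
    exact contMDiffAt_iff_contDiffAt.1 h2
  refine hNot (down u) ?_ ?_ ?_
  · intro x y l hl
    by_cases h1 : ((x, y) : E) ∈ V 0
    · have h2 : ((x + l, y) : E) ∈ V 0 := by
        rcases h1 with h1 | h1
        · exact Or.inl (fun h3 => h1 ((lam_add hl).1 h3))
        · exact Or.inr h1
      rw [down_eq u h1, down_eq u h2, ← hPt.2.2.2.2.2.2.1 (x, y) h1 l hl]
    · have h2 : ((x + l, y) : E) ∉ V 0 := by
        rintro (h2 | h2)
        · exact h1 (Or.inl (fun h3 => h2 ((lam_add hl).2 h3)))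
        · exact h1 (Or.inr h2)
      unfold down
      rw [if_neg h1, if_neg h2]
  · intro j z hz
    refine ⟨fun t => u (kap j t), hsm j z hz, ?_⟩
    filter_upwards [(hPt.1 j).mem_nhds hz] with t ht hW
    rw [down_eq u (W_sub hW), hPt.2.2.2.1 j t ht hW]
  · intro z hz v
    have hzV := W_sub hz
    obtain ⟨g, hi⟩ := exists_inv' hM hzV
    have hline : ContDiffAt ℂ ω (fun ζ : ℂ => z + ζ • v) 0 :=
      contDiffAt_const.add (contDiffAt_id.smul contDiffAt_const)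
    have hz0 : z + (0 : ℂ) • v = z := by simp
    have hf : IsDisc (fun ζ : ℂ => kap 0 (z + ζ • v)) := by
      have h1 : ContMDiffAt 𝓘(ℂ, E) 𝓘(ℂ, E) ω (kap 0) (z + (0 : ℂ) • v) := by
        rw [hz0]; exact hM.kap_an 0 z hzV
      exact ContMDiffAt.comp (0 : ℂ) h1 (contMDiffAt_iff_contDiffAt.2 hline)
    have hp : (fun ζ : ℂ => kap 0 (z + ζ • v)) 0 = kap 0 z := by
      show kap 0 (z + (0 : ℂ) • v) = kap 0 z
      rw [hz0]
    have hc : Tendsto (fun ζ : ℂ => z + ζ • v) (𝓝 0) (𝓝 z) := by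
      have h9 : Tendsto (fun ζ : ℂ => z + ζ • v) (𝓝 0) (𝓝 (z + (0 : ℂ) • v)) :=
        hline.continuousAt
      rwa [hz0] at h9
    have hd : deriv (fun ζ : ℂ => g (kap 0 (z + ζ • v))) 0 = v := by
      have h1 : (fun ζ : ℂ => g (kap 0 (z + ζ • v))) =ᶠ[𝓝 0] (fun ζ : ℂ => z + ζ • v) :=
        hc.eventually hi.left
      rw [h1.deriv_eq]
      have h2 : HasDerivAt (fun ζ : ℂ => z + ζ • v) ((1 : ℂ) • v) 0 :=
        ((hasDerivAt_id (0 : ℂ)).smul_const v).const_add z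
      rw [h2.deriv, one_smul]
    have h1 := hsemi _ hf
    rw [hval _ hf, hα.val hi hf hp (pot_self hreg hz)] at h1
    have h2 := hi.lap hLev hf hp (hsm 0 z hzV) (Eventually.of_forall fun t => rfl)
    rw [h2, hd] at h1
    have h3 : down u =ᶠ[𝓝 z] (fun t => u (kap 0 t)) := by
      filter_upwards [(hPt.1 0).mem_nhds hzV] with t ht using down_eq u ht
    have h4 : lev (fun t => Phi t + u (kap 0 t)) z v =
        lev Phi z v + lev (fun t => u (kap 0 t)) z v :=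
      hLev.2.2.1 Phi (fun t => u (kap 0 t)) z v ((hreg z hz).of_le (by norm_cast))
        (sm2 (hsm 0 z hzV))
    have h5 : lev (fun z' => Phi z' + down u z') z v = lev (fun t => Phi t + u (kap 0 t)) z v := by
      apply lev_congr
      filter_upwards [h3] with t ht
      rw [ht]
    rw [h5, h4]
    exact h1

end

/-- the main theorem, from its parts -/
theorem main (hG : StG) (hPhi : StPhi) (hPsi : StPsi) (hNef : StNef) (hBig : StBig)
    (hNot : StNot) (hPt : StPt) (hCpt : StCpt) (hLev : StLev) (hReg : StReg) (hMan : StMan)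
    (hVal : StVal) (hExt : StExt) (hPos : StPos) :
    ∃ (Y : Type) (_ : TopologicalSpace Y) (_ : ChartedSpace (ℂ × ℂ) Y),
      IsManifold 𝓘(ℂ, ℂ × ℂ) ω Y ∧ CompactSpace Y ∧ ConnectedSpace Y ∧ T2Space Y ∧
      ∃ Ω α : Form Y, Ω.IsKahler ∧ Nef Ω α ∧ Big Ω α ∧
        ∀ θ : Form Y, θ.Cohomologous α → ¬ θ.Semipositive := by
  obtain ⟨τ, ch, hM, hc, ht2, hconn⟩ := hMan
  obtain ⟨G, h, c, hGr⟩ := hG
  obtain ⟨K, c0, hK, hc0, hlow, hloc⟩ := hPsi G h c hGr
  obtain ⟨hper, hpot⟩ := hPhi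
  have hloc' : ∀ j, ∀ z ∈ V j, ∃ ρ, PotAt (Psi G K) j z ρ := fun j z hz =>
    let ⟨ρ, h1, _⟩ := hloc j z hz
    ⟨ρ, h1⟩
  obtain ⟨perPsi, regPsi⟩ := hReg.2 G h c hGr K
  obtain ⟨α, hα⟩ := hVal τ ch hM Phi hper hReg.1 hpot
  obtain ⟨Ω, hΩ⟩ := hVal τ ch hM (Psi G K) perPsi regPsi hloc'
  exact ⟨X, τ, ch, hM.man, hc, hconn, ht2, Ω, α, kahler hPt hM hΩ hloc,
    nef hPt hLev hVal hExt hPos hM hGr hc0 hNef hΩ hα hpot hper hReg hlow hloc',
    big hPt hCpt hLev hExt hPos hM hGr hK hBig hΩ hα hpot hper hReg hloc',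
    not_semi hPt hLev hM hNot hα hReg.1⟩

end Pool.Agent.Y184.SP.Asm
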