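import Mathlib

/-!
# A surface with a nef and big class without semipositive representatives: coordinates

`B = ℂ / ℤ[i]`, and `X` is the blow-up of `B × ℙ¹` (coordinates `x`, `y`) at `(0, 0)` and at the
point of the exceptional curve which is the direction of `y = x`. Coordinates on `X`: `(x, y)`
outside `(0, 0)`; `(x, 1 / y)`; and near the exceptional curves, with `w = y - x`, the pairs
`(x / w, w)`, `(x² / w, w / x)` and `(x, w / x²)`.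
-/

set_option autoImplicit false

open Set Topology Filter
open scoped ContDiff

namespace Pool.Agent.Y184.SP

/-- the model of the surface -/
abbrev E : Type := ℂ × ℂ

/-- the lattice `ℤ[i]` -/
def Lam : Set ℂ := {x | ∃ m n : ℤ, x = m + n * Complex.I}

/-- the representative of `x` modulo the lattice with real and imaginary part in `[-1/2, 1/2]` -/
noncomputable def red (x : ℂ) : ℂ := x - ((round x.re : ℤ) : ℂ) - ((round x.im : ℤ) : ℂ) * Complex.I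

/-- the bump function on `ℂ`: `1` for `|x| ≤ 1/8`, `0` for `|x| ≥ 1/4` -/
noncomputable def bump : ContDiffBump (0 : ℂ) := ⟨1 / 8, 1 / 4, by norm_num, by norm_num⟩

/-- the periodic bump function -/
noncomputable def chi (x : ℂ) : ℝ := bump (red x)

/-- the dense open set of the points `(x, y)` with `x ∉ Λ`, `y ≠ 0` -/
def W : Set E := {z | z.1 ∉ Lam ∧ z.2 ≠ 0}

/-- the domains of the five coordinate systems -/
def V : Fin 5 → Set E
  | 0 => {z | z.1 ∉ Lam ∨ z.2 ≠ 0}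
  | 1 => Set.univ
  | 2 => {z | ‖z.1 * z.2‖ < 1 / 8 ∧ ‖z.2‖ < 1 / 8}
  | 3 => {z | ‖z.1 * z.2‖ < 1 / 8 ∧ ‖z.1 * z.2 ^ 2‖ < 1 / 8}
  | 4 => {z | ‖z.1‖ < 1 / 8 ∧ ‖z.1 ^ 2 * z.2‖ < 1 / 8}

/-- the coordinates `(x, y)` as functions of the coordinates of the five systems: in the last three
`x = ξ η`, `w = η`, resp. `x = ξ η`, `w = ξ η²`, resp. `x = ξ`, `w = ξ² η`, and `y = w + x` -/
noncomputable def tr : Fin 5 → E → E
  | 0 => fun z => z
  | 1 => fun z => (z.1, z.2⁻¹)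
  | 2 => fun z => (z.1 * z.2, z.2 + z.1 * z.2)
  | 3 => fun z => (z.1 * z.2, z.1 * z.2 ^ 2 + z.1 * z.2)
  | 4 => fun z => (z.1, z.1 ^ 2 * z.2 + z.1)

/-- the Levi form of `ρ` at `z` in the direction `v` (the Laplacian along the complex line) -/
noncomputable def lev (ρ : E → ℝ) (z v : E) : ℝ :=
  Laplacian.laplacian (fun ζ : ℂ => ρ (z + ζ • v)) 0

/-- the square of the length of `v` at `z` for the product of the flat metric and the
Fubini–Study metric -/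
noncomputable def nm (z v : E) : ℝ := ‖v.1‖ ^ 2 + ‖v.2‖ ^ 2 / (1 + ‖z.2‖ ^ 2) ^ 2

/-- the function `u` is periodic -/
def Per (u : E → ℝ) : Prop := ∀ x y l : ℂ, l ∈ Lam → u (x + l, y) = u (x, y)

/-- `f` is smooth near `z` -/
def SmAt (f : E → ℝ) (z : E) : Prop := ∀ᶠ z' in 𝓝 z, ContDiffAt ℝ ∞ f z'

/-- the function `u` on `W` extends to a smooth function near the point `z` of the coordinate
system `j` -/
def ExtAt (u : E → ℝ) (j : Fin 5) (z : E) : Prop :=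
  ∃ f : E → ℝ, SmAt f z ∧ ∀ᶠ z' in 𝓝 z, tr j z' ∈ W → f z' = u (tr j z')

/-- the function `u` on `W` extends to a smooth function on the surface -/
def Ext (u : E → ℝ) : Prop := ∀ j, ∀ z ∈ V j, ExtAt u j z

/-- the form `dd^c Φ` on `W` extends to a smooth form near the point `z` of the coordinate system
`j`, which has the potential `ρ` -/
def PotAt (Φ : E → ℝ) (j : Fin 5) (z : E) (ρ : E → ℝ) : Prop :=
  SmAt ρ z ∧ ∀ᶠ z' in 𝓝 z, tr j z' ∈ W → ∀ v, lev (fun t => ρ t - Φ (tr j t)) z' v = 0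

/-- the functions `L₁`, `L₂` with logarithmic poles -/
noncomputable def L1 (z : E) : ℝ :=
  Real.log ((‖red z.1‖ ^ 2 + ‖z.2 - red z.1‖ ^ 2) / (1 + ‖z.2‖ ^ 2))

noncomputable def L2 (z : E) : ℝ :=
  Real.log ((‖z.2 - red z.1‖ ^ 2 + ‖red z.1‖ ^ 4) / (1 + ‖z.2‖ ^ 2))

/-- the potential of the class `α` -/
noncomputable def Phi (z : E) : ℝ :=
  3 * Real.log (1 + ‖z.2‖ ^ 2) + chi z.1 * (L2 z - Real.log (‖red z.1‖ ^ 2))

/-- the properties of the Green function `G` of `B` -/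
structure IsGreen (G h : ℂ → ℝ) (c : ℝ) : Prop where
  pos : 0 < c
  per : ∀ x l, l ∈ Lam → G (x + l) = G x
  smooth : ∀ x, x ∉ Lam → ContDiffAt ℝ ∞ G x
  lap : ∀ x, x ∉ Lam → Laplacian.laplacian G x = -c
  smooth_h : ∀ x : ℂ, ‖x‖ < 1 / 2 → ContDiffAt ℝ ∞ h x
  eq : ∀ x : ℂ, ‖x‖ < 1 / 2 → x ≠ 0 → G x = Real.log (‖x‖ ^ 2) + h x

/-- the potential of the Kähler form -/
noncomputable def Psi (G : ℂ → ℝ) (K : ℝ) (z : E) : ℝ :=
  -(K * G z.1) + K * Real.log (1 + ‖z.2‖ ^ 2) + chi z.1 * (L1 z + L2 z)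

/-- the function near the curve `y = 0` -/
noncomputable def near (k C : ℝ) (z : E) : ℝ :=
  chi z.1 * Real.log (‖z.2 / red z.1 - 1‖ ^ 2 + k * ‖red z.1‖ ^ 2) + C * ‖z.2‖ ^ 2

/-- the function far from the curve `y = 0` -/
noncomputable def far (G : ℂ → ℝ) (A : ℝ) (z : E) : ℝ :=
  5 / 2 * Real.log (‖z.2‖ ^ 2) + 1 / 2 * Real.log (1 + ‖z.2‖ ^ 2) - G z.1 + A

/-! ### The parts of the proof -/

/-- the Green function -/
def StG : Prop := ∃ (G h : ℂ → ℝ) (c : ℝ), IsGreen G h c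

/-- bounded subharmonic functions on the plane are harmonic -/
def StLiou : Prop := ∀ v : ℂ → ℝ, ContDiff ℝ 2 v → (∃ K, ∀ x, |v x| ≤ K) →
  (∀ x, 0 ≤ Laplacian.laplacian v x) → ∀ x, Laplacian.laplacian v x = 0

/-- there is no elliptic function with one simple pole -/
def StRes : Prop := ∀ g : ℂ → ℂ, (∀ x, x ∉ Lam → DifferentiableAt ℂ g x) →
  (∀ x l, l ∈ Lam → g (x + l) = g x) → ¬ Tendsto (fun x => x * g x) (𝓝[≠] 0) (𝓝 (-1))

/-- the class `α` -/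
def StPhi : Prop := Per Phi ∧ ∀ j, ∀ z ∈ V j, ∃ ρ, PotAt Phi j z ρ

/-- the Kähler form -/
def StPsi : Prop := ∀ (G h : ℂ → ℝ) (c : ℝ), IsGreen G h c → ∃ K c0 : ℝ, 0 < K ∧ 0 < c0 ∧
  (∀ z ∈ W, ∀ v, c0 * nm z v ≤ lev (Psi G K) z v) ∧
  ∀ j, ∀ z ∈ V j, ∃ ρ, PotAt (Psi G K) j z ρ ∧ ∀ v, v ≠ 0 → 0 < lev ρ z v

/-- the lower bound near the curve `y = 0` -/
def StNear : Prop := ∀ ε : ℝ, 0 < ε → ∃ k C η : ℝ, 0 < k ∧ k ≤ 1 ∧ 0 ≤ C ∧ 0 < η ∧
  ∀ z ∈ W, ‖z.2‖ < η → ∀ v, -(ε * nm z v) ≤ lev (near k C) z v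

/-- comparison of the two functions -/
def StComp : Prop := ∀ (G h : ℂ → ℝ) (c : ℝ), IsGreen G h c → ∀ k C η : ℝ, 0 < k → k ≤ 1 →
  0 ≤ C → 0 < η → ∃ A η1 η2 : ℝ, 0 < η1 ∧ η1 < η2 ∧ η2 < η ∧
  (∀ z ∈ W, ‖z.2‖ ≤ η1 → far G A z + 1 ≤ near k C z) ∧
  ∀ z ∈ W, η2 ≤ ‖z.2‖ → ‖z.2‖ ≤ η → near k C z + 1 ≤ far G A z

/-- the regularised maximum -/
def StMax : Prop := ∃ m : ℝ → ℝ, ContDiff ℝ ∞ m ∧ (∀ r, r ≤ -1 → m r = 0) ∧
  (∀ r, 1 ≤ r → m r = r) ∧ ∀ (f g : E → ℝ) (z v : E) (t : ℝ), ContDiffAt ℝ 2 f z →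
  ContDiffAt ℝ 2 g z → t ≤ lev f z v → t ≤ lev g z v →
  t ≤ lev (fun z' => g z' + m (f z' - g z')) z v

/-- the class `α` is nef -/
def StNef : Prop := ∀ (G h : ℂ → ℝ) (c : ℝ), IsGreen G h c → ∀ ε : ℝ, 0 < ε → ∃ U : E → ℝ,
  Per U ∧ Ext (fun z => U z - Phi z) ∧ ∀ z ∈ W, ∀ v, -(ε * nm z v) ≤ lev U z v

/-- the point `z` of the coordinate system `j` is on the curve `y = 0` or on an exceptional curve -/
def onA (j : Fin 5) (z : E) : Prop := j ≠ 1 ∧ (tr j z).2 = 0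

/-- the class `α` is big -/
def StBig : Prop := ∀ (G h : ℂ → ℝ) (c : ℝ), IsGreen G h c → ∀ K : ℝ, 0 < K →
  ∃ (δ : ℝ) (U : E → ℝ), 0 < δ ∧ Per U ∧
  (∀ z ∈ W, ∀ v, δ * lev (Psi G K) z v ≤ lev U z v) ∧
  (∀ j, ∀ z ∈ V j, ¬ onA j z → ExtAt (fun z => U z - Phi z) j z) ∧
  ∀ j, ∀ z ∈ V j, onA j z →
    Tendsto (fun z' => U (tr j z') - Phi (tr j z')) (𝓝[{z' | tr j z' ∈ W}] z) atBot

/-- there is no semipositive representative -/
def StNot : Prop := ∀ u : E → ℝ, Per u → Ext u →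
  (∀ z ∈ W, ∀ v, 0 ≤ lev (fun z' => Phi z' + u z') z v) → False

end Pool.Agent.Y184.SP
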