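import Pool.Agent.Y184.SP.Base

/-!
A surface with a nef and big class without semipositive representatives: the points of the surface.
-/

set_option autoImplicit false

open Set Topology Filter
open scoped ContDiff Manifold

namespace Pool.Agent.Y184.SP

/-- the representative of `x` modulo the lattice with real and imaginary part in `[0, 1)` -/
noncomputable def frc (x : ℂ) : ℂ :=
  ((Int.fract x.re : ℝ) : ℂ) + ((Int.fract x.im : ℝ) : ℂ) * Complex.I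

/-- the inverse of `ξ` in `ℂ ∪ {∞}` -/
noncomputable def inv1 (ξ : ℂ) : OnePoint ℂ :=
  open Classical in if ξ = 0 then OnePoint.infty else ((ξ⁻¹ : ℂ) : OnePoint ℂ)

/-- The points of the surface: the pairs `(x, y)`, `x ∈ [0, 1)²`, `y ∈ ℂ ∪ {∞}`, different from
`(0, 0)`, and the points of the exceptional curves, given by the values in `ℂ ∪ {∞}` of the functions
`w / x` and `w / x²`, of which the first is `0` or the second is `∞`. -/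
inductive Pt : Type
  | reg : ℂ → OnePoint ℂ → Pt
  | exc : OnePoint ℂ → OnePoint ℂ → Pt

/-- the points of the surface -/
def X : Type := {p : Pt // (∃ (x : ℂ) (y : OnePoint ℂ), p = Pt.reg x y ∧ frc x = x ∧
  ¬ (x = 0 ∧ y = ((0 : ℂ) : OnePoint ℂ))) ∨
  ∃ Y Z : OnePoint ℂ, p = Pt.exc Y Z ∧ (Y = ((0 : ℂ) : OnePoint ℂ) ∨ Z = OnePoint.infty)}

open Classical in
/-- the coordinate systems, as maps to `Pt` -/
noncomputable def kap0 : Fin 5 → E → Pt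
  | 0 => fun z => Pt.reg (frc z.1) (z.2 : ℂ)
  | 1 => fun z => Pt.reg (frc z.1) (inv1 z.2)
  | 2 => fun z => if z.2 = 0 then Pt.exc (inv1 z.1) OnePoint.infty else
      Pt.reg (frc (z.1 * z.2)) ((z.2 + z.1 * z.2 : ℂ) : OnePoint ℂ)
  | 3 => fun z => if z.1 * z.2 = 0 then Pt.exc (z.2 : ℂ) (inv1 z.1) else
      Pt.reg (frc (z.1 * z.2)) ((z.1 * z.2 ^ 2 + z.1 * z.2 : ℂ) : OnePoint ℂ)
  | 4 => fun z => if z.1 = 0 then Pt.exc ((0 : ℂ) : OnePoint ℂ) (z.2 : ℂ) else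
      Pt.reg (frc z.1) ((z.1 ^ 2 * z.2 + z.1 : ℂ) : OnePoint ℂ)

/-- a point of the surface -/
noncomputable def base : X := ⟨Pt.exc ((0 : ℂ) : OnePoint ℂ) OnePoint.infty,
  Or.inr ⟨_, _, rfl, Or.inl rfl⟩⟩

open Classical in
/-- the coordinate systems (only the values on `V j` matter) -/
noncomputable def kap (j : Fin 5) (z : E) : X :=
  if h : (∃ (x : ℂ) (y : OnePoint ℂ), kap0 j z = Pt.reg x y ∧ frc x = x ∧
    ¬ (x = 0 ∧ y = ((0 : ℂ) : OnePoint ℂ))) ∨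
    ∃ Y Z : OnePoint ℂ, kap0 j z = Pt.exc Y Z ∧ (Y = ((0 : ℂ) : OnePoint ℂ) ∨ Z = OnePoint.infty)
  then ⟨kap0 j z, h⟩ else base

/-- the elementary properties of the points -/
def StPt : Prop := (∀ j, IsOpen (V j)) ∧ (∀ p : X, ∃ j, ∃ z ∈ V j, kap j z = p) ∧
  (∀ j, ∀ z ∈ V j, (kap j z).1 = kap0 j z) ∧
  (∀ j, ∀ z ∈ V j, tr j z ∈ W → kap j z = kap 0 (tr j z)) ∧
  (∀ z ∈ W, ∀ z' ∈ W, kap 0 z = kap 0 z' → z.2 = z'.2 ∧ z.1 - z'.1 ∈ Lam) ∧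
  (∀ j, ∀ z ∈ V j, ∀ z' ∈ W, kap j z = kap 0 z' → tr j z ∈ W) ∧
  (∀ z ∈ V 0, ∀ l ∈ Lam, kap 0 (z.1 + l, z.2) = kap 0 z) ∧
  ∀ j j', ∀ z ∈ V j, ∀ z' ∈ V j', kap j z = kap j' z' → onA j z → onA j' z'

/-- the transition maps -/
def StGerm : Prop := (∀ j, ∀ z ∈ V j, ∃ N ∈ 𝓝 z, Set.InjOn (kap j) N) ∧
  ∀ i j, ∀ z ∈ V i, ∀ z' ∈ V j, kap i z = kap j z' → ∃ h : E → E, ContDiffAt ℂ ω h z ∧ h z = z' ∧
    ∀ᶠ t in 𝓝 z, kap i t = kap j (h t)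

/-- the equivalence relation is closed -/
def StSep : Prop := ∀ i j, ∀ z ∈ V i, ∀ z' ∈ V j, kap i z ≠ kap j z' →
  ∃ N ∈ 𝓝 z, ∃ N' ∈ 𝓝 z', ∀ t ∈ N, ∀ t' ∈ N', kap i t ≠ kap j t'

/-- the surface is covered by compact sets of coordinates, and the coordinates of the points of `W`
are dense -/
def StCpt : Prop := (∃ C : Fin 5 → Set E, (∀ j, IsCompact (C j) ∧ C j ⊆ V j) ∧
  ∀ p : X, ∃ j, ∃ z ∈ C j, kap j z = p) ∧
  (∀ j, ∀ z ∈ V j, z ∈ closure {z' | tr j z' ∈ W}) ∧ IsPreconnected W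

/-- gluing of complex manifolds from coordinate systems -/
def StGlue : Prop := ∀ (X : Type) (ι : Type) (V : ι → Set E) (κ : ι → E → X),
  (∀ i, IsOpen (V i)) → (∀ p, ∃ i, ∃ z ∈ V i, κ i z = p) →
  (∀ i, ∀ z ∈ V i, ∃ N ∈ 𝓝 z, Set.InjOn (κ i) N) →
  (∀ i j, ∀ z ∈ V i, ∀ z' ∈ V j, κ i z = κ j z' → ∃ h : E → E, ContDiffAt ℂ ω h z ∧ h z = z' ∧
    ∀ᶠ t in 𝓝 z, κ i t = κ j (h t)) →
  ∃ (_ : TopologicalSpace X) (_ : ChartedSpace E X), IsManifold 𝓘(ℂ, E) ω X ∧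
    (∀ s : Set X, IsOpen s ↔ ∀ i, IsOpen (V i ∩ κ i ⁻¹' s)) ∧
    (∀ i, ∀ O : Set E, IsOpen O → O ⊆ V i → IsOpen (κ i '' O)) ∧
    (∀ i, ∀ z ∈ V i, ContMDiffAt 𝓘(ℂ, E) 𝓘(ℂ, E) ω (κ i) z) ∧
    ∀ i, ∀ z ∈ V i, ∃ g : X → E, ContMDiffAt 𝓘(ℂ, E) 𝓘(ℂ, E) ω g (κ i z) ∧ g (κ i z) = z ∧
      (∀ᶠ p in 𝓝 (κ i z), κ i (g p) = p) ∧ ∀ᶠ t in 𝓝 z, g (κ i t) = t

end Pool.Agent.Y184.SP
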