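import Pool.Agent.Y184.SP.Base2

/-!
Closed real `(1,1)`-forms on complex surfaces, and the parts of the assembly.
-/

set_option autoImplicit false

open Set Topology Filter
open scoped ContDiff Manifold

namespace Pool.Agent.Y184.SP

section Surface

variable {Y : Type} [TopologicalSpace Y] [ChartedSpace (ℂ × ℂ) Y]

/-- `f` is (near `0`) a holomorphic disc in the complex surface `Y` -/
def IsDisc (f : ℂ → Y) : Prop := ContMDiffAt 𝓘(ℂ, ℂ) 𝓘(ℂ, ℂ × ℂ) ω f 0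

variable (Y) in
/-- A smooth closed real `(1,1)`-form on the complex surface `Y`, given by its local potentials: it
is `dd^c (pot p)` near `p`, where the function `pot p` is smooth near `p`. For `q` near `p` the
functions `pot p` and `pot q` have the same Laplacian at `q` along all discs through `q`. -/
structure Form where
  pot : Y → Y → ℝ
  smooth : ∀ p, ∀ᶠ q in 𝓝 p, ContMDiffAt 𝓘(ℝ, ℂ × ℂ) 𝓘(ℝ, ℝ) ∞ (pot p) q
  compat : ∀ p, ∀ᶠ q in 𝓝 p, ∀ f : ℂ → Y, IsDisc f → f 0 = q →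
    Laplacian.laplacian (fun ζ : ℂ => pot p (f ζ) - pot q (f ζ)) 0 = 0

/-- The value of the form on the tangent vector of the disc `f` at `f 0` (this is, up to a constant
factor, `θ (v, J v)` for the tangent vector `v` of `f` at `0`). -/
noncomputable def Form.val (θ : Form Y) (f : ℂ → Y) : ℝ :=
  Laplacian.laplacian (fun ζ : ℂ => θ.pot (f 0) (f ζ)) 0

/-- The form is a Kähler form: it is positive. -/
def Form.IsKahler (Ω : Form Y) : Prop :=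
  ∀ f : ℂ → Y, IsDisc f → mfderiv 𝓘(ℂ, ℂ) 𝓘(ℂ, ℂ × ℂ) f 0 ≠ 0 → 0 < Ω.val f

/-- The form is semipositive. -/
def Form.Semipositive (θ : Form Y) : Prop := ∀ f : ℂ → Y, IsDisc f → 0 ≤ θ.val f

/-- The forms `θ` and `α` have the same class in `H^{1,1}(Y, ℝ)`: `θ = α + dd^c u` with a smooth
function `u` on `Y`. -/
def Form.Cohomologous (θ α : Form Y) : Prop :=
  ∃ u : Y → ℝ, ContMDiff 𝓘(ℝ, ℂ × ℂ) 𝓘(ℝ, ℝ) ∞ u ∧
    ∀ f : ℂ → Y, IsDisc f → θ.val f = α.val f + Laplacian.laplacian (fun ζ : ℂ => u (f ζ)) 0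

/-- The class of `α` is nef. -/
def Nef (Ω α : Form Y) : Prop :=
  ∀ ε : ℝ, 0 < ε → ∃ θ : Form Y, θ.Cohomologous α ∧
    ∀ f : ℂ → Y, IsDisc f → -(ε * Ω.val f) ≤ θ.val f

/-- The class of `α` is big, in a strong sense: there are a closed set `A` without interior and a
function `u`, smooth outside `A` and with limit `-∞` at all points of `A`, such that
`α + dd^c u ≥ δ Ω` outside `A`. Then `α + dd^c u` is a Kähler current in the class. -/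
def Big (Ω α : Form Y) : Prop :=
  ∃ (δ : ℝ) (A : Set Y) (u : Y → ℝ), 0 < δ ∧ IsClosed A ∧ interior A = ∅ ∧
    (∀ p, p ∉ A → ContMDiffAt 𝓘(ℝ, ℂ × ℂ) 𝓘(ℝ, ℝ) ∞ u p) ∧
    (∀ p ∈ A, Tendsto u (𝓝[Aᶜ] p) atBot) ∧
    ∀ f : ℂ → Y, IsDisc f → f 0 ∉ A →
      δ * Ω.val f ≤ α.val f + Laplacian.laplacian (fun ζ : ℂ => u (f ζ)) 0

end Surface

/-! ### The parts of the proof -/

/-- the Levi form -/
def StLev : Prop :=
  (∀ (ρ : E → ℝ) (f : ℂ → E), ContDiffAt ℂ ω f 0 → ContDiffAt ℝ 2 ρ (f 0) →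
    Laplacian.laplacian (fun ζ : ℂ => ρ (f ζ)) 0 = lev ρ (f 0) (deriv f 0)) ∧
  (∀ (ρ : E → ℝ) (z v : E), SmAt ρ z → ContinuousAt (fun p : E × E => lev ρ p.1 p.2) (z, v)) ∧
  (∀ (ρ σ : E → ℝ) (z v : E), ContDiffAt ℝ 2 ρ z → ContDiffAt ℝ 2 σ z →
    lev (fun t => ρ t + σ t) z v = lev ρ z v + lev σ z v) ∧
  ∀ (ρ : E → ℝ) (a : ℝ) (z v : E), ContDiffAt ℝ 2 ρ z →
    lev (fun t => a * ρ t) z v = a * lev ρ z v

/-- regularity of the potentials -/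
def StReg : Prop := (∀ z ∈ W, ContDiffAt ℝ ∞ Phi z) ∧
  ∀ (G h : ℂ → ℝ) (c : ℝ), IsGreen G h c → ∀ K : ℝ, Per (Psi G K) ∧
    ∀ z ∈ W, ContDiffAt ℝ ∞ (Psi G K) z

/-- the properties of the topology and the complex structure of `X` -/
structure IsMan (τ : TopologicalSpace X) (ch : ChartedSpace E X) : Prop where
  man : IsManifold 𝓘(ℂ, E) ω X
  isOpen_iff : ∀ s : Set X, IsOpen s ↔ ∀ i, IsOpen (V i ∩ kap i ⁻¹' s)
  isOpen_image : ∀ i, ∀ O : Set E, IsOpen O → O ⊆ V i → IsOpen (kap i '' O)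
  kap_an : ∀ i, ∀ z ∈ V i, ContMDiffAt 𝓘(ℂ, E) 𝓘(ℂ, E) ω (kap i) z
  inv : ∀ i, ∀ z ∈ V i, ∃ g : X → E, ContMDiffAt 𝓘(ℂ, E) 𝓘(ℂ, E) ω g (kap i z) ∧
    g (kap i z) = z ∧ (∀ᶠ p in 𝓝 (kap i z), kap i (g p) = p) ∧ ∀ᶠ t in 𝓝 z, g (kap i t) = t

/-- the surface -/
def StMan : Prop := ∃ (τ : TopologicalSpace X) (ch : ChartedSpace E X), IsMan τ ch ∧
  CompactSpace X ∧ T2Space X ∧ ConnectedSpace X

/-- the form on the surface with the local potentials of the function `Φ` -/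
def StVal : Prop := ∀ (τ : TopologicalSpace X) (ch : ChartedSpace E X), IsMan τ ch →
  ∀ Φ : E → ℝ, Per Φ → (∀ z ∈ W, ContDiffAt ℝ ∞ Φ z) → (∀ j, ∀ z ∈ V j, ∃ ρ, PotAt Φ j z ρ) →
  ∃ θ : Form X, ∀ f : ℂ → X, IsDisc f → ∀ j, ∀ z ∈ V j, kap j z = f 0 → ∀ ρ, PotAt Φ j z ρ →
    ∀ g : X → E, ContMDiffAt 𝓘(ℂ, E) 𝓘(ℂ, E) ω g (f 0) → g (f 0) = z →
    (∀ᶠ p in 𝓝 (f 0), kap j (g p) = p) → θ.val f = lev ρ z (deriv (fun ζ => g (f ζ)) 0)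

/-- the function on the surface which extends a periodic function on `W` -/
def StExt : Prop := ∀ (τ : TopologicalSpace X) (ch : ChartedSpace E X), IsMan τ ch →
  ∀ u : E → ℝ, Per u → ∃ u' : X → ℝ, ∀ j, ∀ z ∈ V j, ∀ f : E → ℝ, SmAt f z →
    (∀ᶠ z' in 𝓝 z, tr j z' ∈ W → f z' = u (tr j z')) →
    (∀ᶠ z' in 𝓝 z, u' (kap j z') = f z') ∧ ContMDiffAt 𝓘(ℝ, E) 𝓘(ℝ, ℝ) ∞ u' (kap j z)

/-- comparison of Levi forms by continuity -/
def StPos : Prop := ∀ (Φ Ψ : E → ℝ) (a : ℝ), Per Φ → Per Ψ → (∀ z ∈ W, ContDiffAt ℝ ∞ Φ z) →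
  (∀ z ∈ W, ContDiffAt ℝ ∞ Ψ z) → (∀ z ∈ W, ∀ v, a * lev Φ z v ≤ lev Ψ z v) →
  ∀ j, ∀ z ∈ V j, ∀ ρ σ, PotAt Φ j z ρ → PotAt Ψ j z σ → ∀ v, a * lev ρ z v ≤ lev σ z v

end Pool.Agent.Y184.SP
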