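import Pool.Agent.Y184.SP.Asm3
import Pool.Agent.Y257.SP.Green
import Pool.Agent.Y257.SP.Liou
import Pool.Agent.Y625.SP.Res
import Pool.Agent.Y625.SP.Lev
import Pool.Agent.Y625.SP.Max
import Pool.Agent.Y310.SP.Phi
import Pool.Agent.Y304.SP.Psi
import Pool.Agent.Y240.SP.Near
import Pool.Agent.Y429.SP.Comp
import Pool.Agent.Y429.SP.Reg
import Pool.Agent.Y429.SP.Pos
import Pool.Agent.Y590.SPK.LevL
import Pool.Agent.Y590.SPK.Big
import Pool.Agent.Y375.SP.Main
import Pool.Agent.Y776.SP.Pt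
import Pool.Agent.Y378.SP.Germ
import Pool.Agent.Y41.SP.Sep
import Pool.Agent.Y41.SP.Cpt
import Pool.Agent.Y26.SP.Glue
import Pool.Agent.Y484.SP.Man
import Pool.Agent.Y807.SP.Ext
import Pool.Agent.Y807.SP.Val

/-!
The parts of the proof, proved by helpers 257, 625, 310, 304, 240, 429, 590, 375, 776, 378, 41, 26,
484 and 807.
-/

set_option autoImplicit false

open scoped ContDiff Manifold

namespace Pool.Agent.Y184.SP.Parts

theorem hPt : StPt := Pool.Agent.Y776.SP.stPt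
theorem hCpt : StCpt := Pool.Agent.Y41.SP.cpt hPt
theorem hLev : StLev := Pool.Agent.Y625.SP.lev_thm
theorem hMan : StMan := Pool.Agent.Y484.SP.man_holds hPt (Pool.Agent.Y378.SP.germ hPt)
  (Pool.Agent.Y41.SP.sep hPt) hCpt Pool.Agent.Y26.SP.glue
theorem hG : StG := Pool.Agent.Y257.SP.green
theorem hPhi : StPhi := Pool.Agent.Y310.SP.stPhi
theorem hPsi : StPsi := Pool.Agent.Y304.SP.stPsi
theorem hNef : StNef := Pool.Agent.Y590.SPK.nef Pool.Agent.Y240.SP.near_holds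
  Pool.Agent.Y429.SP.comp Pool.Agent.Y625.SP.max_thm
theorem hBig : StBig := Pool.Agent.Y590.SPK.big
theorem hNot : StNot := Pool.Agent.Y375.SP.t Pool.Agent.Y257.SP.liou Pool.Agent.Y625.SP.res
theorem hReg : StReg := Pool.Agent.Y429.SP.reg
theorem hVal : StVal := t_Val hPt hCpt hLev
theorem hExt : StExt := t_Ext hPt hCpt
theorem hPos : StPos := Pool.Agent.Y429.SP.pos hCpt hLev

/-- the smooth case -/
theorem smooth_case : ∃ (Y : Type) (_ : TopologicalSpace Y) (_ : ChartedSpace (ℂ × ℂ) Y),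
    IsManifold 𝓘(ℂ, ℂ × ℂ) ω Y ∧ CompactSpace Y ∧ ConnectedSpace Y ∧ T2Space Y ∧
    ∃ Ω α : Form Y, Ω.IsKahler ∧ Nef Ω α ∧ Big Ω α ∧
      ∀ θ : Form Y, θ.Cohomologous α → ¬ θ.Semipositive :=
  Asm.main hG hPhi hPsi hNef hBig hNot hPt hCpt hLev hReg hMan hVal hExt hPos

end Pool.Agent.Y184.SP.Parts
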